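import Pool.Agent.L7h71.GC.Stm

set_option autoImplicit false

/-!
# Project GC, part ULT: limits

The structure is the quotient of the set of terms by equality of the values along an ultrafilter.
-/

namespace Pool.Agent.L7h95.GC

open Set Filter Function FirstOrder FirstOrder.Language
open Pool.Agent.L7h71.UN (IsEU)

section lim

variable {L : FirstOrder.Language.{0, 0}} {K : Type} [L.Structure K]

variable (L) in
/-- equality of the values along the ultrafilter -/
def std (z : ℕ → ℕ → K) : Setoid (L.Term ℕ) where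
  r s t := ∀ᶠ τ in (hyperfilter ℕ : Filter ℕ), s.realize (z τ) = t.realize (z τ)
  iseqv := ⟨fun _ => Eventually.of_forall fun _ => rfl, fun h => h.mono fun _ h => h.symm,
    fun h h' => (h.and h').mono fun _ h => h.1.trans h.2⟩

variable (L) in
/-- the limit structure -/
def MM (z : ℕ → ℕ → K) : Type := Quotient (std L z)

variable {z : ℕ → ℕ → K}

variable (z) in
/-- the class of a term -/
def mk (t : L.Term ℕ) : MM L z := Quotient.mk (std L z) t

/-- a representative -/
noncomputable def out (m : MM L z) : L.Term ℕ := Quotient.out m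

theorem mk_out (m : MM L z) : mk z (out m) = m := Quotient.out_eq m

theorem mk_eq {s t : L.Term ℕ} : mk z s = mk z t ↔
    ∀ᶠ τ in (hyperfilter ℕ : Filter ℕ), s.realize (z τ) = t.realize (z τ) := Quotient.eq (r := std L z)

theorem out_mk (t : L.Term ℕ) :
    ∀ᶠ τ in (hyperfilter ℕ : Filter ℕ), (out (mk z t)).realize (z τ) = t.realize (z τ) :=
  mk_eq.1 (mk_out _)

noncomputable instance : L.Structure (MM L z) where
  funMap f x := mk z (Term.func f fun i => out (x i))
  RelMap R x := ∀ᶠ τ in (hyperfilter ℕ : Filter ℕ),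
    Structure.RelMap R fun i => (out (x i)).realize (z τ)

theorem funMap_mk {n : ℕ} (f : L.Functions n) (t : Fin n → L.Term ℕ) :
    Structure.funMap f (fun i => mk z (t i)) = mk z (Term.func f t) := by
  change mk z _ = _
  rw [mk_eq]
  have h1 : ∀ᶠ τ in (hyperfilter ℕ : Filter ℕ), ∀ i,
      (out (mk z (t i))).realize (z τ) = (t i).realize (z τ) :=
    eventually_all.2 fun i => out_mk (t i)
  refine h1.mono fun τ h => ?_
  rw [Term.realize_func, Term.realize_func]
  exact congrArg _ (funext h)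

theorem relMap_mk {n : ℕ} (R : L.Relations n) (t : Fin n → L.Term ℕ) :
    Structure.RelMap R (fun i => mk z (t i)) ↔
      ∀ᶠ τ in (hyperfilter ℕ : Filter ℕ), Structure.RelMap R fun i => (t i).realize (z τ) := by
  change (∀ᶠ τ in (hyperfilter ℕ : Filter ℕ), _) ↔ _
  have h1 : ∀ᶠ τ in (hyperfilter ℕ : Filter ℕ), ∀ i,
      (out (mk z (t i))).realize (z τ) = (t i).realize (z τ) :=
    eventually_all.2 fun i => out_mk (t i)
  refine eventually_congr (h1.mono fun τ h => ?_)
  rw [funext h]

theorem real_mk {β : Type} (t : L.Term β) (w : β → L.Term ℕ) :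
    t.realize (fun b => mk z (w b)) = mk z (t.subst w) := by
  induction t with
  | var b => rfl
  | func f ts ih =>
    rw [Term.realize_func]
    simp only [ih]
    exact funMap_mk f _

theorem elim_mk {α : Type} {n : ℕ} (v : α → L.Term ℕ) (xs : Fin n → L.Term ℕ) :
    Sum.elim (fun a => mk z (v a)) (fun i => mk z (xs i)) = fun b => mk z (Sum.elim v xs b) := by
  funext b
  cases b <;> rfl

theorem elim_ev {α : Type} {n : ℕ} (v : α → L.Term ℕ) (xs : Fin n → L.Term ℕ) (τ : ℕ) :
    Sum.elim (fun a => (v a).realize (z τ)) (fun i => (xs i).realize (z τ)) =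
      fun b => (Sum.elim v xs b).realize (z τ) := by
  funext b
  cases b <;> rfl

theorem snoc_mk {n : ℕ} (xs : Fin n → L.Term ℕ) (s : L.Term ℕ) :
    (fun i => mk z ((Fin.snoc xs s : Fin (n + 1) → L.Term ℕ) i)) =
      Fin.snoc (fun i => mk z (xs i)) (mk z s) := by
  funext i
  refine Fin.lastCases ?_ (fun j => ?_) i
  · rw [Fin.snoc_last, Fin.snoc_last]
  · rw [Fin.snoc_castSucc, Fin.snoc_castSucc]

theorem snoc_ev {n : ℕ} (xs : Fin n → L.Term ℕ) (s : L.Term ℕ) (τ : ℕ) :
    (fun i => ((Fin.snoc xs s : Fin (n + 1) → L.Term ℕ) i).realize (z τ)) =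
      Fin.snoc (fun i => (xs i).realize (z τ)) (s.realize (z τ)) := by
  funext i
  refine Fin.lastCases ?_ (fun j => ?_) i
  · rw [Fin.snoc_last, Fin.snoc_last]
  · rw [Fin.snoc_castSucc, Fin.snoc_castSucc]

variable {α : Type}

theorem qf_lim {n : ℕ} {φ : L.BoundedFormula α n} (h : φ.IsQF) (v : α → L.Term ℕ)
    (xs : Fin n → L.Term ℕ) :
    φ.Realize (fun a => mk z (v a)) (fun i => mk z (xs i)) ↔
      ∀ᶠ τ in (hyperfilter ℕ : Filter ℕ),
        φ.Realize (fun a => (v a).realize (z τ)) (fun i => (xs i).realize (z τ)) := by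
  induction h with
  | falsum =>
    exact ⟨fun h => False.elim h, fun h => h.exists.choose_spec⟩
  | of_isAtomic hA =>
    cases hA with
    | equal t₁ t₂ =>
      simp only [BoundedFormula.realize_bdEqual, elim_mk, elim_ev, real_mk, mk_eq,
        Term.realize_subst]
    | rel R ts =>
      simp only [BoundedFormula.realize_rel, elim_mk, elim_ev, real_mk, relMap_mk,
        Term.realize_subst]
  | imp _ _ ih1 ih2 =>
    simp only [BoundedFormula.realize_imp, ih1, ih2]
    exact Ultrafilter.eventually_imp.symm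

theorem univ_lim {n : ℕ} {φ : L.BoundedFormula α n} (h : φ.IsUniversal) (v : α → L.Term ℕ)
    (xs : Fin n → L.Term ℕ)
    (hr : ∀ᶠ τ in (hyperfilter ℕ : Filter ℕ),
        φ.Realize (fun a => (v a).realize (z τ)) (fun i => (xs i).realize (z τ))) :
    φ.Realize (fun a => mk z (v a)) (fun i => mk z (xs i)) := by
  induction h with
  | of_isQF hQF => exact (qf_lim hQF v xs).2 hr
  | all _ ih =>
    rw [BoundedFormula.realize_all]
    intro a
    have h1 := ih (Fin.snoc xs (out a)) (by
      refine hr.mono fun τ h => ?_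
      rw [BoundedFormula.realize_all] at h
      rw [snoc_ev]
      exact h _)
    rw [snoc_mk, mk_out] at h1
    exact h1

theorem eu_lim {n : ℕ} {φ : L.BoundedFormula α n} (h : IsEU φ)
    {v : α → K} {xs : Fin n → K} {F₀ : Set K} (hF₀ : F₀.Finite) (hv : ∀ i, v i ∈ F₀)
    (hxs : ∀ i, xs i ∈ F₀) (hr : φ.Realize v xs) :
    ∃ F₁ : Set K, F₁.Finite ∧ F₀ ⊆ F₁ ∧ ∀ (z : ℕ → ℕ → K) (s : K → L.Term ℕ),
      (∀ p ∈ F₁, ∀ τ, (s p).realize (z τ) = p) →
      φ.Realize (fun a => mk z (s (v a))) (fun i => mk z (s (xs i))) := by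
  induction h generalizing F₀ with
  | of_isUniversal hU =>
    refine ⟨F₀, hF₀, subset_rfl, fun z s hs => ?_⟩
    refine univ_lim hU (fun a => s (v a)) (fun i => s (xs i)) (Eventually.of_forall fun τ => ?_)
    have e1 : (fun a => (s (v a)).realize (z τ)) = v := funext fun a => hs _ (hv a) τ
    have e2 : (fun i => (s (xs i)).realize (z τ)) = xs := funext fun a => hs _ (hxs a) τ
    rw [e1, e2]
    exact hr
  | ex _ ih =>
    rw [BoundedFormula.realize_ex] at hr
    obtain ⟨b, hb⟩ := hr
    obtain ⟨F₁, h0, h1, h2⟩ := ih (F₀ := insert b F₀) (hF₀.insert b)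
      (fun i => Set.mem_insert_of_mem _ (hv i)) (by
      intro i
      refine Fin.lastCases ?_ (fun j => ?_) i
      · rw [Fin.snoc_last]
        exact Set.mem_insert _ _
      · rw [Fin.snoc_castSucc]
        exact Set.mem_insert_of_mem _ (hxs j)) hb
    refine ⟨F₁, h0, (Set.subset_insert _ _).trans h1, fun z s hs => ?_⟩
    rw [BoundedFormula.realize_ex]
    refine ⟨mk z (s b), ?_⟩
    have h3 := h2 z s hs
    have e1 : (fun i => mk z (s ((Fin.snoc xs b : Fin _ → K) i))) =
        Fin.snoc (fun i => mk z (s (xs i))) (mk z (s b)) := by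
      funext i
      refine Fin.lastCases ?_ (fun j => ?_) i
      · rw [Fin.snoc_last, Fin.snoc_last]
      · rw [Fin.snoc_castSucc, Fin.snoc_castSucc]
    rw [e1] at h3
    exact h3

theorem sent_real {M : Type} [L.Structure M] (φ : L.Sentence) (v : Empty → M) (xs : Fin 0 → M) :
    M ⊨ φ ↔ BoundedFormula.Realize φ v xs :=
  iff_of_eq (congrArg₂ (BoundedFormula.Realize φ) (Subsingleton.elim _ _)
    (Subsingleton.elim _ _))

theorem theory_lim (T : L.Theory) (hEU : ∀ φ ∈ T, IsEU φ) (hfin : {φ ∈ T | ¬ φ.IsUniversal}.Finite)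
    (hS : K ⊨ T) :
    ∃ F : Set K, F.Finite ∧ ∀ (z : ℕ → ℕ → K) (s : K → L.Term ℕ),
      (∀ p ∈ F, ∀ τ, (s p).realize (z τ) = p) → MM L z ⊨ T := by
  have h1 : ∀ φ ∈ T, ∃ F : Set K, F.Finite ∧ ∀ (z : ℕ → ℕ → K) (s : K → L.Term ℕ),
      (∀ p ∈ F, ∀ τ, (s p).realize (z τ) = p) → MM L z ⊨ φ := by
    intro φ hφ
    obtain ⟨F, h0, -, h⟩ := eu_lim (α := Empty) (hEU φ hφ) (K := K) (v := default) (xs := default)
      (F₀ := ∅) Set.finite_empty (fun i => i.elim) (fun i => i.elim0)
      ((sent_real φ _ _).1 (Theory.realize_sentence_of_mem T hφ))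
    exact ⟨F, h0, fun z s hs => (sent_real φ _ _).2 (h z s hs)⟩
  choose! F hF0 hF using h1
  refine ⟨⋃ φ ∈ {φ ∈ T | ¬ φ.IsUniversal}, F φ, hfin.biUnion fun φ hφ => hF0 φ hφ.1,
    fun z s hs => ?_⟩
  refine (Theory.model_iff T).2 fun φ hφ => ?_
  by_cases hU : φ.IsUniversal
  · exact (sent_real φ _ _).2 (univ_lim hU (fun a => a.elim) (fun i => i.elim0)
      (Eventually.of_forall fun τ => (sent_real φ _ _).1 (Theory.realize_sentence_of_mem T hφ)))
  · exact hF φ hφ z s fun p hp => hs p (Set.mem_biUnion (show φ ∈ {φ ∈ T | ¬ φ.IsUniversal} from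
      ⟨hφ, hU⟩) hp)

theorem inf_lim (h : ∀ i j, i ≠ j → ∃ t₀, ∀ t ≥ t₀, z t i ≠ z t j) :
    Infinite (MM L z) := by
  refine Infinite.of_injective (fun i : ℕ => mk z (Term.var i : L.Term ℕ)) fun i j hij => ?_
  by_contra hne
  obtain ⟨t₀, ht⟩ := h i j hne
  have h1 := mk_eq.1 hij
  have h2 : ∀ᶠ τ in (hyperfilter ℕ : Filter ℕ), τ ≥ t₀ :=
    Nat.hyperfilter_le_atTop (eventually_ge_atTop t₀)
  obtain ⟨τ, h3, h4⟩ := (h1.and h2).exists
  exact ht τ h4 h3

end lim

open Pool.Agent.L7h71.GC in
/-- ULT: limits. -/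
theorem s_ULT : S_ULT := by
  intro L hL T hEU hfin S hS
  let _ := S
  obtain ⟨F, hF0, hF⟩ := theory_lim T hEU hfin hS
  refine ⟨hF0.toFinset, fun z hz1 hz2 => ?_⟩
  choose! s hs using hz1
  have h1 : MM L z ⊨ T := hF z s fun p hp => hs p (hF0.mem_toFinset.2 hp)
  have : Infinite (MM L z) := inf_lim hz2
  have : Countable (Σ l, L.Functions l) := by
    have h2 : Countable L.Symbols := hL
    exact (Injective.countable (f := fun x : (Σ l, L.Functions l) => (Sum.inl x : L.Symbols))
      Sum.inl_injective)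
  have : Countable (MM L z) := by
    have h3 : Countable (L.Term ℕ) := inferInstance
    exact (Surjective.countable (f := mk z) (fun m => ⟨out m, mk_out m⟩))
  obtain ⟨g⟩ := nonempty_equiv_of_countable (α := MM L z) (β := ℕ)
  have hvar : ∀ t : L.Term ℕ, t.realize (fun i => mk z (Term.var i : L.Term ℕ)) = mk z t := by
    intro t
    rw [real_mk, mk_eq]
    refine Eventually.of_forall fun τ => ?_
    rw [Term.realize_subst]
    rfl
  refine ⟨g.inducedStructure, fun i => g (mk z (Term.var i)), ?_, ?_, ?_⟩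
  · exact @StrongHomClass.theory_model L (MM L z) ℕ _ g.inducedStructure T _ _ _
      g.inducedStructureEquiv h1
  · intro p
    refine ⟨out (g.symm p), ?_⟩
    have h4 := @HomClass.realize_term L (MM L z) ℕ _ g.inducedStructure ℕ _ _ _
      g.inducedStructureEquiv (out (g.symm p)) (fun i => mk z (Term.var i : L.Term ℕ))
    rw [hvar, mk_out] at h4
    exact h4.trans (g.apply_symm_apply p)
  · rintro φ hφ ⟨t₀, hp⟩
    refine (@StrongHomClass.realize_formula L (MM L z) ℕ _ g.inducedStructure ℕ _ _ _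
      g.inducedStructureEquiv φ (fun i => mk z (Term.var i : L.Term ℕ))).2 ?_
    have h5 := (qf_lim (z := z) hφ (fun i => (Term.var i : L.Term ℕ)) (fun i => i.elim0)).2 (by
      have h6 : ∀ᶠ τ in (hyperfilter ℕ : Filter ℕ), τ ≥ t₀ :=
        Nat.hyperfilter_le_atTop (eventually_ge_atTop t₀)
      refine h6.mono fun τ h => ?_
      have h7 := hp τ h
      unfold fr Formula.Realize at h7
      have e1 : (fun a => (Term.var a : L.Term ℕ).realize (z τ)) = z τ := rfl
      rw [e1]
      convert h7 using 1)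
    unfold Formula.Realize
    convert h5 using 1

end Pool.Agent.L7h95.GC
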